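import Mathlib
import Pool.Agent.Q327.LVLower

/-!
# Las Vegas automaton size against uniform Las Vegas message complexity: the gap is quadratic

For every alphabet with at least two letters and every `j` there is a regular language `L` with
`lvmc(L) ≤ 2 · 2^j` and `lvs(L) = 2^(2 j) `.
-/

set_option autoImplicit false

namespace Pool.Agent.Results.MP_7e58b6_lc.QuadraticGap

open Finset Pool.Agent.Q327.SP Pool.Agent.Q327.LV

variable {α : Type*}

/-! ### The deterministic automaton -/

/-- the minimal automaton as a DFA -/
def dfa (n : ℕ) (f : α → Bool) : DFA α (V n) where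
  step v a := letter (f a) v
  start := zero
  accept := {v | v 0 = true}

lemma dfa_eval (n : ℕ) (f : α → Bool) (w : List α) : (dfa n f).eval w = state n f w := by
  induction w using List.reverseRecOn with
  | nil => rfl
  | append_singleton w a ih =>
    rw [DFA.eval_append_singleton, ih, state_append]
    rfl

lemma isRegular (n : ℕ) (f : α → Bool) : (lang n f).IsRegular := by
  refine ⟨V n, inferInstance, dfa n f, ?_⟩
  ext w
  rw [DFA.mem_accepts, dfa_eval]
  rfl

open Classical in
/-- the DFA as an LVFA with `2^(n+1)` states -/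
noncomputable def detLVFA (n : ℕ) (f : α → Bool) : LVFA α (Fintype.card (V n)) :=
  let e := Fintype.equivFin (V n)
  { kind := fun q => some (e.symm q 0)
    start := e zero
    trans := fun q a q' => if q' = e (letter (f a) (e.symm q)) then 1 else 0
    trans_nonneg := by
      intro q a q'
      split_ifs <;> norm_num
    trans_sum := by
      intro q a
      simp }

lemma detLVFA_dist (n : ℕ) (f : α → Bool) (w : List α) (q : Fin (Fintype.card (V n))) :
    (detLVFA n f).dist w q = if q = Fintype.equivFin (V n) (state n f w) then 1 else 0 := by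
  classical
  induction w using List.reverseRecOn generalizing q with
  | nil =>
    unfold LVFA.dist LVFA.evolve
    simp only [List.foldl_nil]
    by_cases h : q = Fintype.equivFin (V n) (state n f ([] : List α))
    · rw [if_pos h, h]
      exact Pi.single_eq_same _ _
    · rw [if_neg h]
      exact Pi.single_eq_of_ne h _
  | append_singleton w a ih =>
    have h1 : (detLVFA n f).dist (w ++ [a]) q =
        ∑ r, (detLVFA n f).dist w r * (detLVFA n f).trans r a q := by
      unfold LVFA.dist
      rw [evolve_append]
      rfl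
    rw [h1]
    simp only [ih]
    rw [sum_eq_single (Fintype.equivFin (V n) (state n f w))]
    · rw [if_pos rfl, one_mul]
      simp only [detLVFA]
      rw [Equiv.symm_apply_apply, state_append]
      rfl
    · intro r _ hr
      rw [if_neg hr, zero_mul]
    · simp

lemma detLVFA_recognises (n : ℕ) (f : α → Bool) : (detLVFA n f).Recognises (lang n f) := by
  classical
  intro w
  set e := Fintype.equivFin (V n) with he
  have hkind : ∀ q, (detLVFA n f).kind q = some (e.symm q 0) := fun q => rfl
  have hpos : ∀ q, 0 < (detLVFA n f).dist w q → q = e (state n f w) := by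
    intro q hq
    rw [detLVFA_dist] at hq
    by_contra h
    rw [if_neg h] at hq
    exact lt_irrefl _ hq
  have hsum : ∀ b : Bool, state n f w 0 = b →
      1 / 2 ≤ ∑ q ∈ univ.filter (fun q => (detLVFA n f).kind q = some b),
        (detLVFA n f).dist w q := by
    intro b hb
    have hmem : e (state n f w) ∈ univ.filter (fun q => (detLVFA n f).kind q = some b) := by
      rw [mem_filter, hkind, Equiv.symm_apply_apply, hb]
      exact ⟨mem_univ _, rfl⟩
    have h1 := single_le_sum (f := fun q => (detLVFA n f).dist w q)
      (fun q _ => dist_nonneg _ w q) hmem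
    have h2 : (detLVFA n f).dist w (e (state n f w)) = 1 := by
      rw [detLVFA_dist, if_pos rfl]
    rw [h2] at h1
    linarith
  constructor
  · intro hw
    rw [mem_lang] at hw
    refine ⟨fun q hq => ?_, hsum true hw⟩
    rw [hpos q hq, hkind, Equiv.symm_apply_apply, hw]
    simp
  · intro hw
    rw [mem_lang, Bool.not_eq_true] at hw
    refine ⟨fun q hq => ?_, hsum false hw⟩
    rw [hpos q hq, hkind, Equiv.symm_apply_apply, hw]
    simp

/-- `lvs` is exactly `2^(n+1)`, the number of states of the minimal DFA. -/
theorem lvs_eq {f : α → Bool} (hf : Function.Surjective f) (n : ℕ) :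
    lvs (lang n f) = 2 ^ (n + 1) := by
  have hcard : Fintype.card (V n) = 2 ^ (n + 1) := by simp
  apply le_antisymm
  · apply Nat.sInf_le
    rw [← hcard]
    exact ⟨_, detLVFA_recognises n f⟩
  · have hne : {N | ∃ A : LVFA α N, A.Recognises (lang n f)}.Nonempty :=
      ⟨_, _, detLVFA_recognises n f⟩
    apply le_csInf hne
    rintro N ⟨A, hA⟩
    exact lower_bound hf A hA

/-! ### The protocol -/

/-- the coordinate `h * j + i` of the half `h` -/
def coord (j : ℕ) (hj : 0 < j) (h : Bool) (i : Fin j) : Fin (2 * j - 1 + 1) :=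
  ⟨(if h then j else 0) + i, by have := i.2; split_ifs <;> omega⟩

lemma exists_coord (j : ℕ) (hj : 0 < j) (x : Fin (2 * j - 1 + 1)) :
    ∃ h i, coord j hj h i = x := by
  by_cases hx : (x : ℕ) < j
  · exact ⟨false, ⟨x, hx⟩, by apply Fin.ext; simp [coord]⟩
  · refine ⟨true, ⟨x - j, by have := x.2; omega⟩, ?_⟩
    apply Fin.ext
    simp only [coord, if_true]
    omega

lemma coord_inj (j : ℕ) (hj : 0 < j) {h h' : Bool} {i i' : Fin j}
    (e : coord j hj h i = coord j hj h' i') : h = h' ∧ i = i' := by
  have h1 := congrArg Fin.val e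
  simp only [coord] at h1
  have h2 := i.2
  have h3 := i'.2
  cases h <;> cases h' <;> simp at h1 ⊢
  · exact Fin.ext h1
  · omega
  · omega
  · exact Fin.ext h1

/-- the message for the half `h` -/
def msg (j : ℕ) (hj : 0 < j) (v : V (2 * j - 1)) (h : Bool) : Bool × (Fin j → Bool) :=
  (h, fun i => v (coord j hj h i))

open Classical in
/-- the answer: the last letters `y` turn the coordinate `σ 0` into the coordinate `0`; it is known
if it belongs to the half sent -/
noncomputable def ans (j : ℕ) (hj : 0 < j) (f : α → Bool) (y : List α)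
    (m : Bool × (Fin j → Bool)) : Option Bool :=
  if h : ∃ i : Fin j, coord j hj m.1 i = (act_eq_sp (n := 2 * j - 1) (y.map f)).choose 0 then
    some (xor (m.2 h.choose)
      ((act_eq_sp (n := 2 * j - 1) (y.map f)).choose_spec.choose 0))
  else none

lemma act_zero (j : ℕ) (f : α → Bool) (y : List α) (v : V (2 * j - 1)) :
    act (y.map f) v 0 = xor (v ((act_eq_sp (n := 2 * j - 1) (y.map f)).choose 0))
      ((act_eq_sp (n := 2 * j - 1) (y.map f)).choose_spec.choose 0) := by
  rw [(act_eq_sp (n := 2 * j - 1) (y.map f)).choose_spec.choose_spec v]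
  rfl

lemma ans_msg (j : ℕ) (hj : 0 < j) (f : α → Bool) (y : List α) (v : V (2 * j - 1)) (h : Bool) :
    ans j hj f y (msg j hj v h) = none ∨
      ans j hj f y (msg j hj v h) = some (act (y.map f) v 0) := by
  classical
  unfold ans
  split_ifs with hex
  · right
    congr 1
    rw [act_zero]
    simp only [msg]
    have := hex.choose_spec
    simp only [msg] at this
    rw [this]
  · left; rfl

lemma ans_half (j : ℕ) (hj : 0 < j) (f : α → Bool) (y : List α) (v : V (2 * j - 1)) :
    ∃ h, ans j hj f y (msg j hj v h) = some (act (y.map f) v 0) := by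
  classical
  obtain ⟨h, i, hi⟩ := exists_coord j hj ((act_eq_sp (n := 2 * j - 1) (y.map f)).choose 0)
  refine ⟨h, ?_⟩
  rcases ans_msg j hj f y v h with h1 | h1
  · exfalso
    unfold ans at h1
    rw [dif_pos ⟨i, hi⟩] at h1
    exact Option.some_ne_none _ h1
  · exact h1

open Classical in
/-- Alice sends one of the two halves of the state, chosen at random. -/
noncomputable def protocol (j : ℕ) (hj : 0 < j) (f : α → Bool) :
    Protocol α (Fintype.card (Bool × (Fin j → Bool))) :=
  let e := Fintype.equivFin (Bool × (Fin j → Bool))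
  { μ := fun x m => ∑ h : Bool, if e (msg j hj (state (2 * j - 1) f x) h) = m then 1 / 2 else 0
    out := fun y m b => if b = ans j hj f y (e.symm m) then 1 else 0
    μ_nonneg := by
      intro x m
      apply sum_nonneg
      intro h _
      split_ifs <;> norm_num
    μ_sum := by
      intro x
      rw [sum_comm]
      simp
    out_nonneg := by
      intro y m b
      split_ifs <;> norm_num
    out_sum := by
      intro y m
      simp }

lemma protocol_correct (j : ℕ) (hj : 0 < j) (f : α → Bool) :
    (protocol j hj f).Correct (lang (2 * j - 1) f) := by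
  classical
  intro x y
  set v := state (2 * j - 1) f x with hv
  set e := Fintype.equivFin (Bool × (Fin j → Bool)) with he
  have hμ : ∀ m, (protocol j hj f).μ x m =
      ∑ h : Bool, if e (msg j hj v h) = m then 1 / 2 else 0 := fun m => rfl
  have hout : ∀ m b, (protocol j hj f).out y m b =
      if b = ans j hj f y (e.symm m) then 1 else 0 := fun m b => rfl
  have hst : state (2 * j - 1) f (x ++ y) 0 = act (y.map f) v 0 := by rw [state_append]
  -- messages of positive probability
  have hpos : ∀ m, 0 < (protocol j hj f).μ x m → ∃ h, e (msg j hj v h) = m := by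
    intro m hm
    by_contra hno
    push Not at hno
    rw [hμ] at hm
    rw [sum_eq_zero (fun h _ => if_neg (hno h))] at hm
    exact lt_irrefl _ hm
  have hnever : ∀ b, act (y.map f) v 0 ≠ b → ∀ m, 0 < (protocol j hj f).μ x m →
      (protocol j hj f).out y m (some b) = 0 := by
    intro b hb m hm
    obtain ⟨h, rfl⟩ := hpos m hm
    rw [hout, Equiv.symm_apply_apply, if_neg]
    rcases ans_msg j hj f y v h with h1 | h1
    · rw [h1]; simp
    · rw [h1]
      intro h2
      exact hb (Option.some.inj h2).symm
  have hhalf : ∀ b, act (y.map f) v 0 = b →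
      1 / 2 ≤ ∑ m, (protocol j hj f).μ x m * (protocol j hj f).out y m (some b) := by
    intro b hb
    obtain ⟨h, hh⟩ := ans_half j hj f y v
    have h1 := single_le_sum
      (f := fun m => (protocol j hj f).μ x m * (protocol j hj f).out y m (some b))
      (fun m _ => mul_nonneg ((protocol j hj f).μ_nonneg x m) ((protocol j hj f).out_nonneg y m _))
      (mem_univ (e (msg j hj v h)))
    refine le_trans ?_ h1
    rw [hout, Equiv.symm_apply_apply, hh, hb, if_pos rfl, mul_one, hμ]
    have h2 := single_le_sum
      (f := fun h' : Bool => if e (msg j hj v h') = e (msg j hj v h) then (1 / 2 : ℝ) else 0)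
      (fun h' _ => by split_ifs <;> norm_num) (mem_univ h)
    simp only [if_true] at h2
    exact h2
  constructor
  · intro hmem
    rw [mem_lang, hst] at hmem
    exact ⟨hnever false (by rw [hmem]; simp), hhalf true hmem⟩
  · intro hmem
    rw [mem_lang, hst, Bool.not_eq_true] at hmem
    exact ⟨hnever true (by rw [hmem]; simp), hhalf false hmem⟩

theorem lvmc_le (f : α → Bool) (j : ℕ) (hj : 0 < j) :
    lvmc (lang (2 * j - 1) f) ≤ 2 * 2 ^ j := by
  have hcard : Fintype.card (Bool × (Fin j → Bool)) = 2 * 2 ^ j := by simp
  apply Nat.sInf_le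
  rw [← hcard]
  exact ⟨_, protocol_correct j hj f⟩

/-- **Main theorem.** Let the alphabet `α` have at least two letters. For every `j ≥ 1` there is a
regular language `L` with `lvmc(L) ≤ 2 · 2^j` and `lvs(L) = 2^(2 j)`. Hence for every `m ≥ 4` there is
a regular language `L` with `lvmc(L) ≤ m` and `lvs(L) > m² / 16`: the known quadratic upper bound
`G(m) ≤ m²` is tight up to a constant factor. -/
theorem result {α : Type*} [Nontrivial α] :
    (∀ j : ℕ, 1 ≤ j → ∃ L : Language α, L.IsRegular ∧ lvmc L ≤ 2 * 2 ^ j ∧ lvs L = 2 ^ (2 * j)) ∧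
    (∀ m : ℕ, 4 ≤ m → ∃ L : Language α, L.IsRegular ∧ lvmc L ≤ m ∧ m ^ 2 < 16 * lvs L) := by
  classical
  have main : ∀ j : ℕ, 1 ≤ j →
      ∃ L : Language α, L.IsRegular ∧ lvmc L ≤ 2 * 2 ^ j ∧ lvs L = 2 ^ (2 * j) := by
    intro j hj
    obtain ⟨a, b, hab⟩ := exists_pair_ne α
    let f : α → Bool := fun x => decide (x = a)
    have hf : Function.Surjective f := by
      intro t
      cases t
      · exact ⟨b, by simp [f, hab.symm]⟩
      · exact ⟨a, by simp [f]⟩
    refine ⟨lang (2 * j - 1) f, isRegular _ _, lvmc_le f j hj, ?_⟩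
    rw [lvs_eq hf]
    congr 1
    omega
  refine ⟨main, fun m hm => ?_⟩
  set k := Nat.log 2 m with hk
  have hk2 : 2 ≤ k := by
    rw [hk]
    exact Nat.le_log_of_pow_le (by norm_num) hm
  have h1 : 2 ^ k ≤ m := Nat.pow_log_le_self 2 (by omega)
  have h2 : m < 2 ^ (k + 1) := Nat.lt_pow_succ_log_self (by norm_num) m
  obtain ⟨L, hL1, hL2, hL3⟩ := main (k - 1) (by omega)
  refine ⟨L, hL1, ?_, ?_⟩
  · have h3 : 2 * 2 ^ (k - 1) = 2 ^ k := by
      rw [← pow_succ']
      congr 1
      omega
    omega
  · rw [hL3]
    calc m ^ 2 < (2 ^ (k + 1)) ^ 2 := Nat.pow_lt_pow_left h2 (by norm_num)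
      _ = 2 ^ (2 * (k + 1)) := by rw [← pow_mul, mul_comm]
      _ = 16 * 2 ^ (2 * (k - 1)) := by
          have : (16 : ℕ) = 2 ^ 4 := by norm_num
          rw [this, ← pow_add]
          congr 1
          omega

end Pool.Agent.Results.MP_7e58b6_lc.QuadraticGap
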